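import Mathlib
import Pool.Agent.R241.SSC

/-!
# A weakly mixing system which is not filter-sensitive

We show that there is a weakly mixing system `(X, T)` for which the family `S_T(δ)` is not a filter
for every `δ > 0`. The system is transitive and thickly sensitive. So neither thick sensitivity
together with transitivity nor weak mixing implies filter-sensitivity.

The system is a spacing shift: the sequences of zeros and ones such that the differences of the
positions of the ones belong to `P`, with `P` obtained by a Baire category argument. The set `P` is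
thick and has the following property. Let `A` be finite and let its positive differences be in `P`.
If `0 ∉ A`, then there are arbitrarily large `n` with `n - a ∈ P` for all `a ∈ A` such that `P` has
no elements in `[n, n + m)`. If `0 ∈ A` and `P` has no elements in `(j - m, j]`, then there are
arbitrarily large `n` with `n - a ∈ P` for all `a ∈ A` such that `P` has no elements in
`[n - j, n - j + m)`. Then no `S_T(W, δ)` is contained in the intersection of `S_T(U, δ)` and
`S_T(V, δ)` for `U = {x : x 0 = 1}` and `V = {x : x j = 1}`.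
-/

set_option autoImplicit false

open Set Pool.Agent.R241.SS

namespace Pool.Agent.Results.MP_bfac72_an.NotFilterSensitive

/-- There are a compact metric space `X` with more than one point and without isolated points, and a
continuous surjection `T : X → X` which is transitive, weakly mixing and thickly sensitive, and
which is not filter-sensitive. -/
theorem result : ∃ (X : Type) (_ : MetricSpace X) (_ : CompactSpace X) (T : X → X),
    Nontrivial X ∧ (∀ x : X, ¬ IsOpen ({x} : Set X)) ∧ Continuous T ∧ Function.Surjective T ∧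
    Transitive T ∧ WeaklyMixing T ∧ ThicklySensitive T ∧ ¬ FilterSensitive T := by
  obtain ⟨P, hPt, hthick, hno⟩ := mainC
  have key : ∀ t : TopologicalSpace (Sig P), t = instTopologicalSpaceSubtype →
      @CompactSpace _ t ∧ (∀ x, ¬ @IsOpen _ t {x}) ∧ @Continuous _ _ t t (shift P) ∧
      @Transitive _ t (shift P) ∧ @WeaklyMixing _ t (shift P) ∧
      ∀ U : Set (Sig P), @Opene _ t U ↔ Opene U := by
    rintro _ rfl
    have hwm : WeaklyMixing (shift P) := by
      rintro W₁ W₂ ⟨ho1, u, hu⟩ ⟨ho2, v, hv⟩
      obtain ⟨m1, h1⟩ := exists_cyl_prod (ho1.mem_nhds hu)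
      obtain ⟨m2, h2⟩ := exists_cyl_prod (ho2.mem_nhds hv)
      obtain ⟨m, hm⟩ : ∃ m, m = m1 + m2 := ⟨_, rfl⟩
      obtain ⟨n, hmn, -, hgl⟩ := exists_glue hPt m 0
      obtain ⟨z, hz1, hz2, hz3, hz4⟩ := glue2 hmn u v (hgl _ _ u.1.2 v.1.2) (hgl _ _ u.2.2 v.2.2)
      exact ⟨n, z, h1 z (fun i hi => hz1 i (by omega)) (fun i hi => hz2 i (by omega)),
        h2 _ (fun i hi => hz3 i (by omega)) (fun i hi => hz4 i (by omega))⟩
    refine ⟨inferInstance, ?_, continuous_shift P, ?_, hwm, fun U => Iff.rfl⟩
    · intro x hx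
      obtain ⟨m, hm⟩ := exists_cyl_sig (hx.mem_nhds rfl)
      obtain ⟨n, hmn, hn, hgl⟩ := exists_glue hPt (m + 1) 0
      have h1 := hm ⟨_, hgl _ _ x.2 (adm_single P 0)⟩ fun i hi => by
        simp only
        exact glue_left (by omega)
      have h2 := hm ⟨_, hgl _ _ x.2 (adm_zero P)⟩ fun i hi => by
        simp only
        exact glue_left (by omega)
      have h3 := congrArg (fun y => y.1 (0 + n))
        ((mem_singleton_iff.1 h1).trans (mem_singleton_iff.1 h2).symm)
      simp only [glue_right hmn (show 0 < m + 1 by omega)] at h3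
      simp at h3
    · rintro U V ⟨hU, u, hu⟩ ⟨hV, v, hv⟩
      obtain ⟨n, z, hz1, hz2⟩ := hwm (U ×ˢ univ) (V ×ˢ univ) ⟨hU.prod isOpen_univ, (u, u), hu, trivial⟩
        ⟨hV.prod isOpen_univ, (v, v), hv, trivial⟩
      refine ⟨n, z.1, hz1.1, ?_⟩
      rw [mem_preimage, Prod.map_iterate] at hz2
      exact hz2.1
  obtain ⟨h1, h2, h3, h4, h5, h6⟩ := key _ (sigMetric_top P)
  refine ⟨Sig P, sigMetric P, h1, shift P, ?_, h2, h3, shift_surjective P, h4, h5, ?_, ?_⟩
  · refine ⟨⟨_, adm_single P 0⟩, ⟨_, adm_zero P⟩, fun h => ?_⟩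
    have := congrArg (fun y => y.1 0) h
    simp at this
  · exact ⟨1 / 2, by norm_num, fun U hU => hthick _ (by norm_num) (by norm_num) U ((h6 U).1 hU)⟩
  · rintro ⟨δ, hδ, -, hF2, hF3⟩
    rcases lt_or_ge δ 1 with hδ1 | hδ1
    · obtain ⟨U, V, hU, hV, h⟩ := hno δ hδ hδ1
      obtain ⟨W, hW, hWs⟩ := hF3 _ ⟨U, (h6 U).2 hU, subset_rfl⟩ _ ⟨V, (h6 V).2 hV, subset_rfl⟩
      exact h W ((h6 W).1 hW) hWs
    · apply hF2
      refine eq_univ_of_forall fun A => ⟨univ, (h6 univ).2 ⟨isOpen_univ, ⟨_, adm_zero P⟩,
        mem_univ _⟩, ?_⟩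
      rintro n ⟨x, -, y, -, h⟩
      exfalso
      obtain ⟨i, hi, -⟩ := lt_dist hδ h
      have : (1 / 2 : ℝ) ^ i ≤ 1 := pow_le_one₀ (by norm_num) (by norm_num)
      linarith

end Pool.Agent.Results.MP_bfac72_an.NotFilterSensitive
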